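import Pool.Agent.H47.FillD

open Set Filter Topology

namespace Pool.Agent.Results.MP_9641f2_gt.Fill

universe u v

/-- `D` projects onto every countable subproduct -/
def FillsCountable {I : Type u} {X : I → Type v} (D : Set (∀ i, X i)) : Prop :=
  ∀ J : Set I, J.Nonempty → J.Countable → ∀ y : (∀ j : J, X j.1), ∃ d ∈ D, ∀ j : J, d j.1 = y j

/-- `D` projects onto every finite subproduct -/
def FillsFinite {I : Type u} {X : I → Type v} (D : Set (∀ i, X i)) : Prop :=
  ∀ J : Set I, J.Nonempty → J.Finite → ∀ y : (∀ j : J, X j.1), ∃ d ∈ D, ∀ j : J, d j.1 = y j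

open Pool.Agent.H47.Fill

theorem partA (I : Type u) (X : I → Type v) [∀ i, TopologicalSpace (X i)] (D : Set (∀ i, X i))
    (h1 : T1Space (∀ i, X i)) (hf : FillsCountable D) (h2 : T2Space D) (hp : ParacompactSpace D)
    (i : I) : T2Space (X i) ∧ ParacompactSpace (X i) := by
  classical
  rcases isEmpty_or_nonempty (X i) with he | ⟨⟨a⟩⟩
  · exact ⟨inferInstance, inferInstance⟩
  obtain ⟨x, -, -⟩ := hf {i} (singleton_nonempty i) (countable_singleton i)
    (fun j => cast (congrArg X (j.2 : j.1 = i).symm) a)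
  have emb : ∀ j, IsEmbedding (Function.update x j) := fun j =>
    Function.LeftInverse.isEmbedding (f := fun y : ∀ i, X i => y j) (fun a => by simp)
      (continuous_apply j) (continuous_const.update j continuous_id)
  have : ∀ j, T1Space (X j) := fun j => (emb j).t1Space
  have hD : D = univ := eq_univ_of_paracompact D fun J hJ y => by
    obtain ⟨d, hd, h⟩ := hf (insert i J) (insert_nonempty _ _) (hJ.insert i) fun j => y j
    exact ⟨d, hd, fun j hj => h ⟨j, Or.inr hj⟩⟩
  subst hD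
  have : T2Space (∀ i, X i) := (Homeomorph.Set.univ _).t2Space
  have : ParacompactSpace (∀ i, X i) := (Homeomorph.Set.univ _).paracompactSpace_iff.1 hp
  refine ⟨(emb i).t2Space, IsClosedEmbedding.paracompactSpace (e := Function.update x i) ?_⟩
  exact Function.LeftInverse.isClosedEmbedding (f := fun y : ∀ i, X i => y i) (fun a => by simp)
      (continuous_apply i) (continuous_const.update i continuous_id)

theorem hK (V : Finset ℝ → Finset (Set (Finset ℝ × ℕ))) :
    (⋃ G, (V G : Set (Set (Finset ℝ × ℕ)))) ≠ univ := by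
  intro h
  refine Function.cantor_surjective (fun q : Finset ℝ × ℕ => (V q.1).toList.getD q.2 ∅) fun s => ?_
  obtain ⟨G, hG⟩ := mem_iUnion.1 (h ▸ mem_univ s)
  obtain ⟨n, hn, e⟩ := List.getElem_of_mem (Finset.mem_toList.2 (Finset.mem_coe.1 hG))
  exact ⟨(G, n), by simp [List.getD_eq_getElem?_getD, List.getElem?_eq_getElem hn, e]⟩

theorem result :
    (∀ (I : Type u) (X : I → Type v) [∀ i, TopologicalSpace (X i)] (D : Set (∀ i, X i)),
      T1Space (∀ i, X i) → FillsCountable D → T2Space D → ParacompactSpace D →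
      ∀ i, T2Space (X i) ∧ ParacompactSpace (X i)) ∧
    (∃ (I : Type) (X : I → Type) (_ : ∀ i, TopologicalSpace (X i)) (D : Set (∀ i, X i)),
      T1Space (∀ i, X i) ∧ FillsFinite D ∧ T2Space D ∧ ParacompactSpace D ∧
      ∃ i, T2Space (X i) ∧ ¬ ParacompactSpace (X i)) ∧
    (∃ (I : Type) (X : I → Type) (_ : ∀ i, TopologicalSpace (X i)) (D : Set (∀ i, X i)),
      T1Space (∀ i, X i) ∧ FillsCountable D ∧ FillsFinite D ∧
      T1Space D ∧ NormalSpace D ∧ CompletelyRegularSpace D ∧
      ∃ i, ¬ NormalSpace (X i) ∧ ¬ CompletelyRegularSpace (X i)) := by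
  refine ⟨fun I X _ D => partA I X D, ?_, ?_⟩
  · have : Nonempty Pk := ⟨⟨((0 : ℕ), OnePoint.infty), by simp⟩⟩
    have e := (ee Pk (ℕ ⊕ Rd) ℕ).subtype (p := fun x => x ∈ ee Pk (ℕ ⊕ Rd) ℕ ⁻¹' D1)
      (q := fun x => x ∈ D1) (fun _ => Iff.rfl)
    refine ⟨Option ℕ, XX Pk (ℕ ⊕ Rd), inferInstance, ee Pk (ℕ ⊕ Rd) ℕ ⁻¹' D1, inferInstance,
      fun J _ hJ y => fill_ee D1 J (fun a z => ?_) y, e.symm.t2Space,
      e.paracompactSpace_iff.2 para_D1, none, inferInstanceAs (T2Space Pk), fun h => ?_⟩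
    · exact fill_D1 a z (some ⁻¹' J) (hJ.preimage (Option.some_injective _).injOn)
    · have : ParacompactSpace Pk := h
      exact not_normal_Pk inferInstance
  · let K := Set (Finset ℝ × ℕ)
    let _ : TopologicalSpace K := ⊥
    have : DiscreteTopology K := ⟨rfl⟩
    have : Nonempty (Y ℝ K) := ⟨Y.p⟩
    have e := (ee (Y ℝ K) K ℝ).subtype (p := fun x => x ∈ ee (Y ℝ K) K ℝ ⁻¹' DD ℝ K)
      (q := fun x => x ∈ DD ℝ K) (fun _ => Iff.rfl)
    have hc : FillsCountable (ee (Y ℝ K) K ℝ ⁻¹' DD ℝ K) := fun J _ hJ y =>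
      fill_ee _ J (fun a z => fill_DD a z (some ⁻¹' J)
        (hJ.preimage_of_injOn (Option.some_injective _).injOn)) y
    have := normal_DD (L := ℝ) (K := K)
    have hn : NormalSpace (ee (Y ℝ K) K ℝ ⁻¹' DD ℝ K) := e.symm.normalSpace
    have : T4Space (ee (Y ℝ K) K ℝ ⁻¹' DD ℝ K) := {}
    refine ⟨Option ℝ, XX (Y ℝ K) K, inferInstance, _, inferInstance, hc,
      fun J h hJ => hc J h hJ.countable, inferInstance, hn, inferInstance, none, fun h => ?_,
      not_cr hK⟩
    have : NormalSpace (Y ℝ K) := h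
    have : T4Space (Y ℝ K) := {}
    exact not_cr (L := ℝ) hK inferInstance

end Pool.Agent.Results.MP_9641f2_gt.Fill
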